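import Pool.Agent.H51.AddingProof

set_option autoImplicit false

namespace Pool.Agent.Results.MP_8907f9_an.ResidualSpectrumEmpty

open Pool.Agent.H51.Adding

/-- For all bases `d r ≥ 2` (bounded or not) and all `p r ∈ (0, 1]` the stochastic adding machine
operator maps continuous functions to continuous functions, and its residual spectrum on the space
of continuous functions is empty. -/
theorem result (d : ℕ → ℕ) (hd : ∀ r, 2 ≤ d r) (p : ℕ → ℝ) (hp : ∀ r, 0 < p r ∧ p r ≤ 1) :
    (∀ g : Gam d → ℂ, Continuous g → Continuous (S hd p g)) ∧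
      residualSpectrum (S hd p) = ∅ :=
  ⟨fun g hg => continuous_S hd hp g hg, main hd hp⟩

end Pool.Agent.Results.MP_8907f9_an.ResidualSpectrumEmpty
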